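import Pool.Agent.W217.BE.Stm

set_option autoImplicit false

namespace Pool.Agent.W738.BERK1

open Pool.Agent.W217.BE

theorem main : RK1 := by
  intro B _ _ _ N _ _ _ h n e
  have hne : Nontrivial (Fin n → B) := e.toEquiv.nontrivial
  have hn : Nonempty (Fin n) := by
    by_contra hc
    rw [not_nonempty_iff] at hc
    exact not_subsingleton (Fin n → B) inferInstance
  obtain ⟨i⟩ := hn
  have hann : Module.annihilator B N ≤ ⊥ := by
    intro b hb
    rw [Module.mem_annihilator] at hb
    have h1 : b • (Pi.single i (1 : B) : Fin n → B) = 0 := by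
      apply e.injective
      rw [map_smul, map_zero]
      exact hb _
    have h2 := congrFun h1 i
    simpa using h2
  obtain ⟨q, hq, -⟩ := Ideal.exists_minimalPrimes_le (I := (⊥ : Ideal B))
    (J := IsLocalRing.maximalIdeal B) bot_le
  have hqp : q.IsPrime := hq.1.1
  have h1 := h q hqp (hann.trans bot_le)
  have h2 : q.height = 0 := by
    rw [Ideal.height_eq_zero_iff]
    exact hq
  rw [h2] at h1
  exact absurd h1 (by norm_num)

end Pool.Agent.W738.BERK1
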